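import Pool.Agent.Y288.CB.TB0

/-!
CB3-KB3: bounds of the kernel.
-/

set_option autoImplicit false

namespace Pool.Agent.Y288.CB

open Filter Finset Topology MeasureTheory GapVol EvenVol EvenVol.LobIneq
open Pool.Agent.W711.HT Pool.Agent.Y472 Pool.Agent.W688.HT
open scoped Real

lemma norm_cos_le_exp (z : ℂ) : ‖Complex.cos z‖ ≤ Real.exp ‖z‖ := by
  unfold Complex.cos
  rw [norm_div]
  have h1 : ‖Complex.exp (z * Complex.I)‖ ≤ Real.exp ‖z‖ := by
    have := Complex.norm_exp_le_exp_norm (z * Complex.I)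
    rwa [norm_mul, Complex.norm_I, mul_one] at this
  have h2 : ‖Complex.exp (-z * Complex.I)‖ ≤ Real.exp ‖z‖ := by
    have := Complex.norm_exp_le_exp_norm (-z * Complex.I)
    rwa [norm_mul, Complex.norm_I, mul_one, norm_neg] at this
  have h3 := norm_add_le (Complex.exp (z * Complex.I)) (Complex.exp (-z * Complex.I))
  rw [show ‖(2 : ℂ)‖ = 2 by simp, div_le_iff₀ (by norm_num)]
  linarith

lemma ev_le {K ε : ℝ} (hε : 0 < ε) : ∀ᶠ N : ℕ in atTop, K ≤ Real.exp (N * ε) := by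
  have h1 : Tendsto (fun N : ℕ => (N : ℝ) * ε) atTop atTop :=
    Tendsto.atTop_mul_const hε tendsto_natCast_atTop_atTop
  exact (Real.tendsto_exp_atTop.comp h1).eventually_ge_atTop K

lemma ev_N {ε : ℝ} (hε : 0 < ε) : ∀ᶠ N : ℕ in atTop, (N : ℝ) ≤ Real.exp (N * ε) := by
  have h1 : Tendsto (fun N : ℕ => (N : ℝ) * ε) atTop atTop :=
    Tendsto.atTop_mul_const hε tendsto_natCast_atTop_atTop
  have h2 := (Real.tendsto_exp_div_pow_atTop 1).comp h1
  filter_upwards [h2.eventually_ge_atTop (1 / ε), eventually_gt_atTop 0] with N hN hN0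
  have hN0' : (0 : ℝ) < N := by exact_mod_cast hN0
  simp only [Function.comp, pow_one] at hN
  rw [div_le_div_iff₀ hε (by positivity)] at hN
  have : (N : ℝ) * ε ≤ Real.exp (N * ε) * ε := by linarith
  exact le_of_mul_le_mul_right this hε

/-- the middle index -/
lemma mid {ε : ℝ} (hε : 0 < ε) : ∀ᶠ N : ℕ in atTop,
    Sd N ((N - 1) / 2) ^ 2 ≤ Real.exp (N * ε) ∧
    ∀ x : ℝ, |x| ≤ π → rh ((((N - 1) / 2 : ℕ) : ℝ) / N) x ≤ ε := by
  have hπ := Real.pi_pos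
  have hπ3 := Real.pi_gt_three
  have huc := isCompact_Icc.uniformContinuousOn_of_continuous
    (lob_cont.continuousOn (s := Set.Icc (-2 * π) (2 * π)))
  rw [Metric.uniformContinuousOn_iff] at huc
  obtain ⟨δ, hδ, hu⟩ := huc (ε / 4) (by positivity)
  have h1 : ∀ᶠ N : ℕ in atTop, π / (N : ℝ) < δ :=
    (tendsto_const_div_atTop_nhds_zero_nat π).eventually (gt_mem_nhds hδ)
  filter_upwards [h1, eventually_gt_atTop 0,
    Pool.Agent.H811R3.EvenVolR.taskR (ε / 4) (by positivity)] with N hN hN0 hR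
  have hNR : (0 : ℝ) < N := by exact_mod_cast hN0
  set n0 : ℕ := (N - 1) / 2 with hn0
  have hn1 : N ≤ 2 * n0 + 2 := by omega
  have hn2 : 2 * n0 ≤ N := by omega
  have hn1' : (N : ℝ) ≤ 2 * n0 + 2 := by exact_mod_cast hn1
  have hn2' : 2 * (n0 : ℝ) ≤ N := by exact_mod_cast hn2
  have hn3 : n0 < N := by omega
  set a : ℝ := π * n0 / N with ha
  have ha1 : a ≤ π / 2 := by
    rw [ha, div_le_iff₀ hNR]; nlinarith
  have ha2 : π / 2 - π / N ≤ a := by
    rw [ha, sub_le_iff_le_add, ← add_div, le_div_iff₀ hNR]; nlinarith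
  have ha0 : 0 ≤ a := by positivity
  have hda : |a - π / 2| < δ := by
    rw [abs_lt]; constructor <;> linarith
  have hlob : ∀ c : ℝ, |c| ≤ π / 2 → |lob (a + c) - lob (π / 2 + c)| < ε / 4 := by
    intro c hc
    have hc' := abs_le.1 hc
    have := hu (a + c) ⟨by linarith, by linarith⟩ (π / 2 + c) ⟨by linarith, by linarith⟩ (by
      rw [Real.dist_eq]
      convert hda using 2
      ring)
    rwa [Real.dist_eq] at this
  have hl0 := hlob 0 (by rw [abs_zero]; positivity)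
  rw [add_zero, add_zero, lob_half, sub_zero] at hl0
  have hl0' := abs_lt.1 hl0
  constructor
  · have h2 := (abs_le.1 (hR n0 (by omega))).2
    rw [← ha, ← log_Sd hn3] at h2
    have hS := Sd_pos hn3
    have h3 : N / π * lob a ≥ -(ε / 4 * N) := by
      have h4 : N / π * lob a ≥ N / π * (-(ε / 4)) := by
        apply mul_le_mul_of_nonneg_left hl0'.1.le (by positivity)
      have h5 : N / π * (ε / 4) ≤ N * (ε / 4) := by
        apply mul_le_mul_of_nonneg_right _ (by positivity)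
        rw [div_le_iff₀ hπ]; nlinarith
      linarith
    have h6 : Real.log (Sd N n0) ≤ N * ε / 2 := by
      have : Real.log (Sd N n0) ≤ ε / 4 * N + ε / 4 * N := by linarith
      linarith
    calc Sd N n0 ^ 2 = Real.exp (2 * Real.log (Sd N n0)) := by
          rw [two_mul, Real.exp_add, Real.exp_log hS, sq]
      _ ≤ Real.exp (N * ε) := Real.exp_le_exp.2 (by linarith)
  · intro x hx
    have hx2 : |x / 2| ≤ π / 2 := by
      rw [abs_div, abs_two]; linarith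
    have hx3 : |-(x / 2)| ≤ π / 2 := by rw [abs_neg]; exact hx2
    have l1 := abs_lt.1 (hlob (x / 2) hx2)
    have l2 := abs_lt.1 (hlob (-(x / 2)) hx3)
    rw [rh_eq]
    have e1 : π * ((n0 : ℝ) / N) = a := by rw [ha]; ring
    rw [e1, div_le_iff₀ hπ]
    have e2 : lob (π / 2 + x / 2) = -lob (π / 2 + -(x / 2)) := by
      rw [← lob_neg, ← lob_per (-(π / 2 + -(x / 2)))]
      congr 1; ring
    have e3 : a - x / 2 = a + -(x / 2) := by ring
    rw [e3]
    have : ε ≤ ε * π := by nlinarith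
    linarith

/-- the bound of a term of the kernel -/
lemma term (h1 : S_TB0) (ε : ℝ) (hε : 0 < ε) : ∃ τ : ℝ, 0 < τ ∧ ∀ᶠ N : ℕ in atTop,
    ∀ d ≤ (N - 1) / 2, ∀ ψ ψ' χ : ℂ, |ψ.re| ≤ π → |ψ.im| ≤ τ → |ψ'.re| ≤ π →
      |ψ'.im| ≤ τ → |χ.re| ≤ π → |χ.im| ≤ τ →
      ‖Rp N d ψ * Rp N d ψ' * Tg N d χ / (Sd N d : ℂ) ^ 2‖ ≤
        Real.exp (N * (bb ((d : ℝ) / N) ψ.re + bb ((d : ℝ) / N) ψ'.re -
          rh ((d : ℝ) / N) χ.re + ε)) := by
  have hπ := Real.pi_pos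
  obtain ⟨τ1, hτ1, H1⟩ := b0 (ε / 6) (by positivity)
  obtain ⟨τ2, hτ2, H2⟩ := h1 (ε / 6) (by positivity)
  refine ⟨min (min τ1 τ2) 1, by positivity, ?_⟩
  set K : ℝ := 2 * Real.exp (π + 1) + 1 with hK
  filter_upwards [H1, H2, mid (ε := ε / 6) (by positivity), ev_le (K := K) (ε := ε / 6)
    (by positivity), eventually_gt_atTop 0] with N H1 H2 hmid hKN hN0
  intro d hd ψ ψ' χ hψ1 hψ2 hψ'1 hψ'2 hχ1 hχ2
  have hNR : (0 : ℝ) < N := by exact_mod_cast hN0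
  set n0 : ℕ := (N - 1) / 2 with hn0
  have hn3 : n0 < N := by omega
  have hdN : d < N := by omega
  have hSd := Sd_pos hdN
  have hSn := Sd_pos hn3
  have hR1 := H1 d hdN ψ.re ψ.im hψ1 (hψ2.trans ((min_le_left _ _).trans (min_le_left _ _)))
  have hR2 := H1 d hdN ψ'.re ψ'.im hψ'1 (hψ'2.trans ((min_le_left _ _).trans (min_le_left _ _)))
  rw [Complex.re_add_im] at hR1 hR2
  have hP := H2 d n0 hd hn3 χ.re χ.im hχ1 (hχ2.trans ((min_le_left _ _).trans (min_le_right _ _)))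
  rw [Complex.re_add_im] at hP
  have hχim : |χ.im| ≤ 1 := hχ2.trans (min_le_right _ _)
  have hfac : ‖(if N % 2 = 0 then 2 * Complex.cos (χ / 2) else 1 : ℂ)‖ ≤ K := by
    split_ifs
    · rw [norm_mul]
      have h3 := norm_cos_le_exp (χ / 2)
      have h4 : ‖χ / 2‖ ≤ π + 1 := by
        rw [norm_div]
        have := Complex.norm_le_abs_re_add_abs_im χ
        rw [show ‖(2 : ℂ)‖ = 2 by simp, div_le_iff₀ (by norm_num)]
        linarith
      have h5 := Real.exp_le_exp.2 h4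
      rw [show ‖(2 : ℂ)‖ = 2 by simp]
      linarith
    · rw [norm_one, hK]
      linarith [Real.exp_pos (π + 1)]
  have hT : ‖Tg N d χ‖ ≤ Real.exp (N * (ε / 6)) * (Sd N n0 ^ 2 / Sd N d ^ 2 *
      Real.exp (N * (rh ((n0 : ℝ) / N) χ.re - rh ((d : ℝ) / N) χ.re + ε / 6))) := by
    unfold Tg
    rw [norm_mul]
    exact mul_le_mul (hfac.trans hKN) hP (norm_nonneg _) (Real.exp_pos _).le
  have hmid2 := hmid.2 χ.re hχ1
  rw [norm_div, norm_mul, norm_mul]
  have hSn' : ‖((Sd N d : ℝ) : ℂ) ^ 2‖ = Sd N d ^ 2 := by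
    rw [norm_pow, Complex.norm_real, Real.norm_of_nonneg hSd.le]
  rw [hSn', div_le_iff₀ (by positivity)]
  calc ‖Rp N d ψ‖ * ‖Rp N d ψ'‖ * ‖Tg N d χ‖ ≤
      (Sd N d ^ 2 * Real.exp (N * (bb ((d : ℝ) / N) ψ.re + ε / 6))) *
      (Sd N d ^ 2 * Real.exp (N * (bb ((d : ℝ) / N) ψ'.re + ε / 6))) *
      (Real.exp (N * (ε / 6)) * (Sd N n0 ^ 2 / Sd N d ^ 2 *
      Real.exp (N * (rh ((n0 : ℝ) / N) χ.re - rh ((d : ℝ) / N) χ.re + ε / 6)))) := by
        gcongr
    _ = Sd N n0 ^ 2 * (Real.exp (N * (bb ((d : ℝ) / N) ψ.re + ε / 6)) *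
        Real.exp (N * (bb ((d : ℝ) / N) ψ'.re + ε / 6)) * Real.exp (N * (ε / 6)) *
        Real.exp (N * (rh ((n0 : ℝ) / N) χ.re - rh ((d : ℝ) / N) χ.re + ε / 6))) *
        Sd N d ^ 2 := by
        field_simp
    _ ≤ Real.exp (N * (ε / 6)) * (Real.exp (N * (bb ((d : ℝ) / N) ψ.re + ε / 6)) *
        Real.exp (N * (bb ((d : ℝ) / N) ψ'.re + ε / 6)) * Real.exp (N * (ε / 6)) *
        Real.exp (N * (rh ((n0 : ℝ) / N) χ.re - rh ((d : ℝ) / N) χ.re + ε / 6))) *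
        Sd N d ^ 2 := by
        have := hmid.1
        gcongr
    _ ≤ Real.exp (N * (bb ((d : ℝ) / N) ψ.re + bb ((d : ℝ) / N) ψ'.re -
          rh ((d : ℝ) / N) χ.re + ε)) * Sd N d ^ 2 := by
        gcongr
        rw [← Real.exp_add, ← Real.exp_add, ← Real.exp_add, ← Real.exp_add, Real.exp_le_exp]
        have : N * (rh ((n0 : ℝ) / N) χ.re) ≤ N * (ε / 6) := by gcongr
        linarith

theorem kb3 (h1 : S_TB0) (h2 : S_RHO) : S_KB3 := by
  have hπ := Real.pi_pos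
  obtain ⟨ρs, hρ0, hρ1, -, -, -, -, R5, R6⟩ := h2
  have hdelta : ∀ N d : ℕ, 0 < N → d ≤ (N - 1) / 2 → (0 : ℝ) ≤ d / N ∧ (d : ℝ) / N ≤ 1 / 2 := by
    intro N d hN hd
    have hNR : (0 : ℝ) < N := by exact_mod_cast hN
    refine ⟨by positivity, ?_⟩
    rw [div_le_div_iff₀ hNR (by norm_num)]
    have : d * 2 ≤ 1 * N := by omega
    exact_mod_cast this
  refine ⟨⟨ρs, hρ0, hρ1, fun ε hε => ?_⟩, fun ρ hρ => ?_⟩
  · obtain ⟨τ, hτ, H⟩ := term h1 (ε / 2) (half_pos hε)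
    refine ⟨τ, hτ, ?_⟩
    filter_upwards [H, ev_N (ε := ε / 2) (half_pos hε), eventually_gt_atTop 0] with N H hN hN0
    intro ψ ψ' χ a1 a2 a3 a4 a5 a6
    have hNR : (0 : ℝ) < N := by exact_mod_cast hN0
    set B : ℝ := 2 * bet - c1 * min |ψ.re| ρs ^ 2 -
        c1 * min |ψ'.re| ρs ^ 2 - c1 * min |χ.re| ρs ^ 2 with hB
    unfold kh
    have hterm : ∀ d ∈ range ((N - 1) / 2 + 1),
        ‖Rp N d ψ * Rp N d ψ' * Tg N d χ / (Sd N d : ℂ) ^ 2‖ ≤ Real.exp (N * (B + ε / 2)) := by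
      intro d hd
      have hd' : d ≤ (N - 1) / 2 := by rw [Finset.mem_range] at hd; omega
      refine (H d hd' ψ ψ' χ a1 a2 a3 a4 a5 a6).trans (Real.exp_le_exp.2 ?_)
      obtain ⟨b1, b2⟩ := hdelta N d hN0 hd'
      have := R5 (d / N) ψ.re ψ'.re χ.re b1 b2 a1 a3 a5
      apply mul_le_mul_of_nonneg_left _ hNR.le
      linarith
    refine (norm_sum_le_of_le _ hterm).trans ?_
    rw [Finset.sum_const, Finset.card_range, nsmul_eq_mul]
    have h3 : (((N - 1) / 2 + 1 : ℕ) : ℝ) ≤ N := by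
      have : (N - 1) / 2 + 1 ≤ N := by omega
      exact_mod_cast this
    calc (((N - 1) / 2 + 1 : ℕ) : ℝ) * Real.exp (N * (B + ε / 2)) ≤
        Real.exp (N * (ε / 2)) * Real.exp (N * (B + ε / 2)) := by
          gcongr
          exact h3.trans hN
      _ = Real.exp (N * (B + ε)) := by
          rw [← Real.exp_add]; congr 1; ring
  · obtain ⟨κ, hκ, R⟩ := R6 ρ hρ
    obtain ⟨τ, hτ, H⟩ := term h1 (κ / 2) (half_pos hκ)
    refine ⟨κ / 2, half_pos hκ, τ, hτ, ?_⟩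
    filter_upwards [H, eventually_gt_atTop 0] with N H hN0
    intro d hd hρd ψ ψ' χ a1 a2 a3 a4 a5 a6
    have hNR : (0 : ℝ) < N := by exact_mod_cast hN0
    refine (H d hd ψ ψ' χ a1 a2 a3 a4 a5 a6).trans (Real.exp_le_exp.2 ?_)
    obtain ⟨b1, b2⟩ := hdelta N d hN0 hd
    have := R (d / N) ψ.re ψ'.re χ.re b1 b2 a1 a3 a5 hρd
    apply mul_le_mul_of_nonneg_left _ hNR.le
    linarith

end Pool.Agent.Y288.CB
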