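import Pool.Agent.Y472.B.Defs
import Pool.Agent.W688.HT.Fin
import Pool.Agent.W688.HT.Bb

/-!
CB3-TB0: bound of the partial products of `2 cos χ - 2 cos (2 π t / N)`.
-/

set_option autoImplicit false

namespace Pool.Agent.Y288.CB

open Filter Finset Topology MeasureTheory GapVol EvenVol EvenVol.LobIneq
open Pool.Agent.W711.HT Pool.Agent.Y472 Pool.Agent.W688.HT
open Pool.Agent.W709.VC (ell Lf)
open Pool.Agent.W440.VC (ell_cont cell cosh_pos' ell_low norm_factor log_factor)
open scoped Real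

/-! ### The integral `rh` -/

lemma rh_bb (δ x : ℝ) : rh δ x = bb δ (π - x) := by
  unfold rh bb
  congr 1
  funext s
  rw [Real.cos_pi_sub]
  have : |Real.cos x - Real.cos (2 * π * s)| = |-Real.cos x + Real.cos (2 * π * s)| := by
    rw [← abs_neg]
    congr 1
    ring
  rw [this]

lemma rh_eq (δ x : ℝ) :
    rh δ x = (2 * lob (π * δ) - lob (π * δ - x / 2) - lob (π * δ + x / 2)) / π := by
  rw [rh_bb, bb_eq]
  have h1 : lob ((π - x) / 2 + π / 2 + π * δ) = lob (π * δ - x / 2) := by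
    rw [show (π - x) / 2 + π / 2 + π * δ = (π * δ - x / 2) + π by ring, lob_per]
  have h2 : lob ((π - x) / 2 + π / 2 - π * δ) = -lob (π * δ + x / 2) := by
    rw [show (π - x) / 2 + π / 2 - π * δ = -(π * δ + x / 2) + π by ring, lob_per, lob_neg]
  rw [h1, h2]
  ring

/-! ### The factors -/

lemma fac (b u y φ : ℝ) (hb : Real.cos b = -Real.cos u ∧ Real.sin b = Real.sin u) :
    ‖(2 * Complex.cos (u + y * Complex.I) - 2 * (Real.cos φ : ℂ))‖ =
      ‖(-2 * Complex.cos (-b + y * Complex.I) - 2 * (Real.cos φ : ℂ))‖ := by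
  congr 2
  have h1 : Complex.cos b = -Complex.cos u := by
    rw [← Complex.ofReal_cos, ← Complex.ofReal_cos, hb.1]; push_cast; rfl
  have h2 : Complex.sin b = Complex.sin u := by
    rw [← Complex.ofReal_sin, ← Complex.ofReal_sin, hb.2]
  rw [Complex.cos_add, Complex.cos_add, Complex.cos_neg, Complex.sin_neg, h1, h2]
  ring

lemma exists_b {u : ℝ} (hu : |u| ≤ π) : ∃ b : ℝ, |b| ≤ π ∧ (b = π - u ∨ b = π - u - 2 * π) ∧
    Real.cos b = -Real.cos u ∧ Real.sin b = Real.sin u := by
  have hu' := abs_le.1 hu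
  rcases le_total 0 u with h | h
  · refine ⟨π - u, ?_, Or.inl rfl, Real.cos_pi_sub u, Real.sin_pi_sub u⟩
    rw [abs_le]
    constructor <;> linarith
  · refine ⟨π - u - 2 * π, ?_, Or.inr rfl, ?_, ?_⟩
    · rw [abs_le]
      constructor <;> linarith
    · rw [Real.cos_sub_two_pi, Real.cos_pi_sub]
    · rw [Real.sin_sub_two_pi, Real.sin_pi_sub]

lemma fac_mono (u v τ φ : ℝ) (hv : |v| ≤ τ) :
    ‖(2 * Complex.cos (u + v * Complex.I) - 2 * (Real.cos φ : ℂ))‖ ≤
      ‖(2 * Complex.cos (u + τ * Complex.I) - 2 * (Real.cos φ : ℂ))‖ := by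
  have hb : Real.cos (π - u) = -Real.cos u ∧ Real.sin (π - u) = Real.sin u :=
    ⟨Real.cos_pi_sub u, Real.sin_pi_sub u⟩
  rw [fac _ _ _ _ hb, fac _ _ _ _ hb]
  refine le_of_sq_le_sq ?_ (norm_nonneg _)
  rw [norm_factor, norm_factor]
  have h1 : Real.cosh v ≤ Real.cosh τ := by
    rw [Real.cosh_le_cosh]
    exact hv.trans (le_abs_self _)
  have h2 := Real.one_le_cosh v
  have h3 := Real.neg_one_le_cos (π - u + φ)
  have h4 := Real.neg_one_le_cos (π - u - φ)
  have h6 : 0 ≤ 2 * Real.cosh v + 2 * Real.cos (π - u - φ) := by linarith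
  exact mul_le_mul (by linarith) (by linarith) h6 (by linarith)

/-! ### Riemann sums -/

lemma rsum {h : ℝ} (hh : 0 < h) {N : ℕ} (hN : 0 < N) (b : ℝ) (y : ℕ) : ∀ x : ℕ, y ≤ x →
    |(∑ t ∈ Ioc y x, (ell h (b + 2 * π * t / N) + ell h (b - 2 * π * t / N)) / 2) -
      N / (4 * π) * ((Lf h (b + 2 * π * x / N) - Lf h (b + 2 * π * y / N)) +
        (Lf h (b - 2 * π * y / N) - Lf h (b - 2 * π * x / N)))| ≤
      (x - y) * (2 * π / N / (Real.cosh h - 1)) := by
  have hq := cosh_pos' hh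
  have hNr : (0 : ℝ) < N := Nat.cast_pos.2 hN
  have hc := ell_cont hh le_rfl
  intro x hx
  induction x, hx using Nat.le_induction with
  | base => simp
  | succ x hx ih =>
    rw [Finset.sum_Ioc_succ_top hx]
    set w : ℝ := 2 * π / N with hw
    have hw0 : 0 < w := by positivity
    have c1 := cell hh le_rfl (b + 2 * π * x / N) w (b + 2 * π * ((x + 1 : ℕ) : ℝ) / N) hw0
      (by
        have : 2 * π * ((x + 1 : ℕ) : ℝ) / N = 2 * π * x / N + w := by
          rw [hw]; push_cast; field_simp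
        rw [this]; linarith)
      (by
        have : 2 * π * ((x + 1 : ℕ) : ℝ) / N = 2 * π * x / N + w := by
          rw [hw]; push_cast; field_simp
        rw [this]; linarith)
    have c2 := cell hh le_rfl (b - 2 * π * ((x + 1 : ℕ) : ℝ) / N) w
      (b - 2 * π * ((x + 1 : ℕ) : ℝ) / N) hw0 le_rfl (by linarith)
    have e1 : b + 2 * π * x / N + w = b + 2 * π * ((x + 1 : ℕ) : ℝ) / N := by
      rw [hw]; push_cast; field_simp; ring
    have e2 : b - 2 * π * ((x + 1 : ℕ) : ℝ) / N + w = b - 2 * π * x / N := by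
      rw [hw]; push_cast; field_simp; ring
    rw [e1] at c1
    rw [e2] at c2
    have i1 : ∫ τ in (b + 2 * π * x / N)..(b + 2 * π * ((x + 1 : ℕ) : ℝ) / N), ell h τ =
        Lf h (b + 2 * π * ((x + 1 : ℕ) : ℝ) / N) - Lf h (b + 2 * π * x / N) := by
      unfold Lf
      rw [intervalIntegral.integral_interval_sub_left (hc.intervalIntegrable _ _)
        (hc.intervalIntegrable _ _)]
    have i2 : ∫ τ in (b - 2 * π * ((x + 1 : ℕ) : ℝ) / N)..(b - 2 * π * x / N), ell h τ =
        Lf h (b - 2 * π * x / N) - Lf h (b - 2 * π * ((x + 1 : ℕ) : ℝ) / N) := by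
      unfold Lf
      rw [intervalIntegral.integral_interval_sub_left (hc.intervalIntegrable _ _)
        (hc.intervalIntegrable _ _)]
    rw [i1] at c1
    rw [i2] at c2
    set A1 := Lf h (b + 2 * π * ((x + 1 : ℕ) : ℝ) / N)
    set A0 := Lf h (b + 2 * π * x / N)
    set B1 := Lf h (b - 2 * π * ((x + 1 : ℕ) : ℝ) / N)
    set B0 := Lf h (b - 2 * π * x / N)
    set Y1 := Lf h (b + 2 * π * y / N)
    set Y0 := Lf h (b - 2 * π * y / N)
    set K : ℝ := Real.cosh h - 1
    set p1 := ell h (b + 2 * π * ((x + 1 : ℕ) : ℝ) / N)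
    set p2 := ell h (b - 2 * π * ((x + 1 : ℕ) : ℝ) / N)
    set s := ∑ t ∈ Ioc y x, (ell h (b + 2 * π * t / N) + ell h (b - 2 * π * t / N)) / 2
    have hNw : (N : ℝ) / (4 * π) = 1 / (2 * w) := by
      rw [hw]; field_simp; norm_num
    rw [hNw] at ih ⊢
    have split : s + (p1 + p2) / 2 - 1 / (2 * w) * ((A1 - Y1) + (Y0 - B1)) =
        (s - 1 / (2 * w) * ((A0 - Y1) + (Y0 - B0))) + 1 / (2 * w) * (w * p1 - (A1 - A0)) +
          1 / (2 * w) * (w * p2 - (B0 - B1)) := by
      field_simp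
      ring
    rw [split]
    have hw2 : (0:ℝ) < 1 / (2 * w) := by positivity
    have t1 : |1 / (2 * w) * (w * p1 - (A1 - A0))| ≤ w / K / 2 := by
      rw [abs_mul, abs_of_pos hw2]
      calc 1 / (2 * w) * |w * p1 - (A1 - A0)| ≤ 1 / (2 * w) * (w * (w / K)) :=
            mul_le_mul_of_nonneg_left c1 hw2.le
        _ = w / K / 2 := by field_simp
    have t2 : |1 / (2 * w) * (w * p2 - (B0 - B1))| ≤ w / K / 2 := by
      rw [abs_mul, abs_of_pos hw2]
      calc 1 / (2 * w) * |w * p2 - (B0 - B1)| ≤ 1 / (2 * w) * (w * (w / K)) :=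
            mul_le_mul_of_nonneg_left c2 hw2.le
        _ = w / K / 2 := by field_simp
    refine (abs_add_three _ _ _).trans ?_
    push_cast
    have : ((x : ℝ) + 1 - y) * (w / K) = (x - y) * (w / K) + w / K / 2 + w / K / 2 := by ring
    rw [this]
    gcongr

theorem tb0 : S_TB0 := by
  intro ε hε
  have hπ := Real.pi_pos
  have hπ3 := Real.pi_gt_three
  obtain ⟨τ, hτ, hsm⟩ := small (ε / 2) (half_pos hε)
  refine ⟨τ, hτ, ?_⟩
  set C : ℝ := 2 * π / (Real.cosh τ - 1) with hC
  have hCN : ∀ᶠ N : ℕ in atTop, C ≤ ε / 8 * N := by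
    have h1 : Tendsto (fun N : ℕ => ε / 8 * (N : ℝ)) atTop atTop :=
      Tendsto.const_mul_atTop (by positivity) tendsto_natCast_atTop_atTop
    exact h1.eventually_ge_atTop C
  filter_upwards [Pool.Agent.H811R3.EvenVolR.taskR (ε / 16) (by positivity), hCN] with N hR hCN
  intro y x hyx hx u v hu hv
  have hN : 0 < N := by omega
  have hNR : (0 : ℝ) < N := by exact_mod_cast hN
  have hy : y < N := by omega
  have hSx := Sd_pos hx
  have hSy := Sd_pos hy
  have hq := cosh_pos' hτ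
  obtain ⟨b, hbπ, hbu, hb⟩ := exists_b hu
  -- the fixed height
  have hstep : ‖∏ t ∈ Ioc y x, (2 * Complex.cos (u + v * Complex.I) -
      2 * (Real.cos (2 * π * t / N) : ℂ))‖ ≤ ∏ t ∈ Ioc y x,
      ‖(-2 * Complex.cos (-b + τ * Complex.I) - 2 * (Real.cos (2 * π * t / N) : ℂ))‖ := by
    rw [norm_prod]
    refine Finset.prod_le_prod (fun _ _ => norm_nonneg _) fun t _ => ?_
    rw [← fac b u τ _ hb]
    exact fac_mono u v τ _ hv
  refine hstep.trans ?_
  set P := ∏ t ∈ Ioc y x,
      ‖(-2 * Complex.cos (-b + τ * Complex.I) - 2 * (Real.cos (2 * π * t / N) : ℂ))‖ with hP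
  have hPpos : 0 < P := Finset.prod_pos fun t _ => (log_factor hτ le_rfl).1
  have hlog : Real.log P = ∑ t ∈ Ioc y x, (ell τ (b + 2 * π * t / N) +
      ell τ (b - 2 * π * t / N)) / 2 := by
    rw [hP, Real.log_prod]
    · exact Finset.sum_congr rfl fun t _ => (log_factor hτ le_rfl).2
    · exact fun t _ => (log_factor hτ le_rfl).1.ne'
  have h1 := (abs_le.1 (rsum hτ hN b y x hyx)).2
  rw [← hlog] at h1
  have hxy : ((x : ℝ) - y) * (2 * π / N / (Real.cosh τ - 1)) ≤ C := by
    have hx' : (x : ℝ) ≤ N := by exact_mod_cast hx.le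
    have hy' : (0 : ℝ) ≤ y := Nat.cast_nonneg y
    calc ((x : ℝ) - y) * (2 * π / N / (Real.cosh τ - 1)) ≤ N * (2 * π / N / (Real.cosh τ - 1)) := by
          apply mul_le_mul_of_nonneg_right (by linarith)
          positivity
      _ = C := by rw [hC]; field_simp
  -- the values of `Lf`
  have hb' := abs_le.1 hbπ
  have val : ∀ d : ℕ, d < N →
      |Lf τ (b + 2 * π * d / N) + 4 * lob (π * d / N - u / 2)| ≤ ε / 2 ∧
      |Lf τ (b - 2 * π * d / N) - 4 * lob (π * d / N + u / 2)| ≤ ε / 2 := by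
    intro d hd
    have hdN : (d : ℝ) ≤ N := by exact_mod_cast hd.le
    set a : ℝ := π * d / N with ha
    have ha0 : 0 ≤ a := by positivity
    have ha1 : a ≤ π := by
      rw [ha, div_le_iff₀ hNR]
      exact mul_le_mul_of_nonneg_left hdN hπ.le
    have e1 : b + 2 * π * d / N = b + 2 * a := by rw [ha]; ring
    have e2 : b - 2 * π * d / N = b - 2 * a := by rw [ha]; ring
    rw [e1, e2]
    have h2 := Lf_near hτ hsm (t := b + 2 * a) (by rw [abs_le]; constructor <;> linarith)
    have h3 := Lf_near hτ hsm (t := b - 2 * a) (by rw [abs_le]; constructor <;> linarith)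
    rw [Lf_zero] at h2 h3
    have e3 : lob (π / 2 + (b + 2 * a) / 2) = lob (a - u / 2) := by
      rcases hbu with rfl | rfl
      · rw [show π / 2 + (π - u + 2 * a) / 2 = (a - u / 2) + π by ring, lob_per]
      · congr 1; ring
    have e4 : lob (π / 2 + (b - 2 * a) / 2) = -lob (a + u / 2) := by
      rw [← lob_neg]
      rcases hbu with rfl | rfl
      · rw [show π / 2 + (π - u - 2 * a) / 2 = -(a + u / 2) + π by ring, lob_per]
      · congr 1; ring
    rw [e3] at h2
    rw [e4] at h3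
    constructor
    · convert h2 using 2; ring
    · convert h3 using 2; ring
  obtain ⟨vx1, vx2⟩ := val x hx
  obtain ⟨vy1, vy2⟩ := val y hy
  rw [abs_le] at vx1 vx2 vy1 vy2
  have h4 := abs_le.1 (hR x (by omega))
  have h5 := abs_le.1 (hR y (by omega))
  rw [← log_Sd hx] at h4
  rw [← log_Sd hy] at h5
  set ax : ℝ := π * x / N with hax
  set ay : ℝ := π * y / N with hay
  have hrx : N * rh ((x : ℝ) / N) u = N / π * (2 * lob ax - lob (ax - u / 2) - lob (ax + u / 2)) := by
    rw [rh_eq]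
    have : π * ((x : ℝ) / N) = ax := by rw [hax]; ring
    rw [this]
    ring
  have hry : N * rh ((y : ℝ) / N) u = N / π * (2 * lob ay - lob (ay - u / 2) - lob (ay + u / 2)) := by
    rw [rh_eq]
    have : π * ((y : ℝ) / N) = ay := by rw [hay]; ring
    rw [this]
    ring
  have h6 : N / (4 * π) * ((Lf τ (b + 2 * π * x / N) - Lf τ (b + 2 * π * y / N)) +
        (Lf τ (b - 2 * π * y / N) - Lf τ (b - 2 * π * x / N))) ≤
      N / π * ((lob (ay - u / 2) + lob (ay + u / 2)) - (lob (ax - u / 2) + lob (ax + u / 2))) +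
        ε / 6 * N := by
    have h7 : (Lf τ (b + 2 * π * x / N) - Lf τ (b + 2 * π * y / N)) +
        (Lf τ (b - 2 * π * y / N) - Lf τ (b - 2 * π * x / N)) ≤
        4 * ((lob (ay - u / 2) + lob (ay + u / 2)) - (lob (ax - u / 2) + lob (ax + u / 2))) +
          2 * ε := by linarith
    have h8 : N / (4 * π) * ((Lf τ (b + 2 * π * x / N) - Lf τ (b + 2 * π * y / N)) +
        (Lf τ (b - 2 * π * y / N) - Lf τ (b - 2 * π * x / N))) ≤ N / (4 * π) *
        (4 * ((lob (ay - u / 2) + lob (ay + u / 2)) - (lob (ax - u / 2) + lob (ax + u / 2))) +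
          2 * ε) := by gcongr
    refine h8.trans ?_
    have e5 : N / (4 * π) * (4 * ((lob (ay - u / 2) + lob (ay + u / 2)) -
        (lob (ax - u / 2) + lob (ax + u / 2))) + 2 * ε) =
        N / π * ((lob (ay - u / 2) + lob (ay + u / 2)) - (lob (ax - u / 2) + lob (ax + u / 2))) +
          ε / (2 * π) * N := by
      field_simp
      ring
    rw [e5]
    have h8 : ε / (2 * π) ≤ ε / 6 := by
      apply div_le_div_of_nonneg_left hε.le (by norm_num)
      linarith
    have h9 : ε / (2 * π) * N ≤ ε / 6 * N := by gcongr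
    linarith
  have h10 : Real.log P ≤ 2 * Real.log (Sd N x) - 2 * Real.log (Sd N y) +
      N * (rh ((x : ℝ) / N) u - rh ((y : ℝ) / N) u + ε) := by
    have e6 : N * (rh ((x : ℝ) / N) u - rh ((y : ℝ) / N) u + ε) =
        2 * (N / π * lob ax) - 2 * (N / π * lob ay) +
        N / π * ((lob (ay - u / 2) + lob (ay + u / 2)) - (lob (ax - u / 2) + lob (ax + u / 2))) +
          ε * N := by
      have : N * (rh ((x : ℝ) / N) u - rh ((y : ℝ) / N) u + ε) =
        N * rh ((x : ℝ) / N) u - N * rh ((y : ℝ) / N) u + ε * N := by ring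
      rw [this, hrx, hry]
      ring
    rw [e6]
    have h11 : 0 < ε * N := by positivity
    linarith [h4.1, h4.2, h5.1, h5.2]
  calc P = Real.exp (Real.log P) := (Real.exp_log hPpos).symm
    _ ≤ Real.exp (2 * Real.log (Sd N x) - 2 * Real.log (Sd N y) +
      N * (rh ((x : ℝ) / N) u - rh ((y : ℝ) / N) u + ε)) := Real.exp_le_exp.2 h10
    _ = Sd N x ^ 2 / Sd N y ^ 2 *
        Real.exp (N * (rh ((x : ℝ) / N) u - rh ((y : ℝ) / N) u + ε)) := by
        rw [Real.exp_add, Real.exp_sub]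
        congr 1
        rw [two_mul, two_mul, Real.exp_add, Real.exp_add, Real.exp_log hSx, Real.exp_log hSy, sq, sq]

end Pool.Agent.Y288.CB
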